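import Pool.Agent.W993.MC.Stm

set_option autoImplicit false

open Filter Topology

namespace Pool.Agent.W493.MC

open Pool.Agent.W993.MC

/-- the value of the word of ones -/
noncomputable def uu (w : ℕ) : ℂ := (Complex.I * Real.pi / 3) ^ w / (w.factorial : ℂ)

theorem uu_ne (w : ℕ) : uu w ≠ 0 := by
  unfold uu
  have h1 : (Complex.I * Real.pi / 3 : ℂ) ≠ 0 := by
    have h3 : (Real.pi : ℂ) ≠ 0 := Complex.ofReal_ne_zero.2 Real.pi_ne_zero
    exact div_ne_zero (mul_ne_zero Complex.I_ne_zero h3) (by norm_num)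
  have h2 : (w.factorial : ℂ) ≠ 0 := Nat.cast_ne_zero.2 (Nat.factorial_ne_zero w)
  exact div_ne_zero (pow_ne_zero _ h1) h2

theorem pow_even (m : ℕ) : (Complex.I * Real.pi / 3 : ℂ) ^ (m + m) =
    (((-(Real.pi / 3) ^ 2) ^ m : ℝ) : ℂ) := by
  have h : (Complex.I * Real.pi / 3 : ℂ) ^ 2 = ((-(Real.pi / 3) ^ 2 : ℝ) : ℂ) := by
    push_cast
    have := Complex.I_sq
    linear_combination ((Real.pi : ℂ) ^ 2 / 9) * this
  rw [← two_mul, pow_mul, h]
  push_cast
  rfl

theorem uu_even (w : ℕ) (hw : Even w) : (uu w).im = 0 := by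
  obtain ⟨m, rfl⟩ := hw
  have : uu (m + m) = (((-(Real.pi / 3) ^ 2) ^ m / ((m + m).factorial : ℝ) : ℝ) : ℂ) := by
    unfold uu
    rw [pow_even]
    push_cast
    rfl
  rw [this]
  exact Complex.ofReal_im _

theorem uu_odd (w : ℕ) (hw : Odd w) : (uu w).re = 0 := by
  obtain ⟨m, rfl⟩ := hw
  have : uu (2 * m + 1) = (((-(Real.pi / 3) ^ 2) ^ m * (Real.pi / 3) /
      ((2 * m + 1).factorial : ℝ) : ℝ) : ℂ) * Complex.I := by
    unfold uu
    rw [pow_succ, two_mul, pow_even]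
    push_cast
    ring
  rw [this]
  simp only [Complex.mul_re, Complex.ofReal_re, Complex.ofReal_im, Complex.I_re, Complex.I_im]
  ring

theorem cword_rep (w : ℕ) : cword (List.replicate (w + 1) 1) =
    (1, omega) :: List.replicate w (1, 1) := by
  rw [List.replicate_succ]
  simp [cword]

theorem tend_rep (h2 : S_ABEL) (h3 : S_OM) (w : ℕ) :
    Tendsto (S (cword (List.replicate (w + 1) 1))) atTop (𝓝 (uu (w + 1))) := by
  have h := h2 w omega h3.1 h3.2.1
  rw [h3.2.2.2] at h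
  rw [cword_rep]
  exact h

theorem uu_mem (h2 : S_ABEL) (h3 : S_OM) (w : ℕ) : uu (w + 1) ∈ Csp (w + 1) := by
  refine Submodule.subset_span ⟨List.replicate (w + 1) 1, by simp, ?_, by simp, tend_rep h2 h3 w⟩
  intro x hx
  rw [List.eq_of_mem_replicate hx]

theorem ex_v (h1 : S_CV) (h3 : S_OM) (h4 : S_CL) (w : ℕ) (hw : 2 ≤ w) :
    ∃ v : ℂ, Tendsto (S (cword [w])) atTop (𝓝 v) ∧ v ∈ Csp w ∧ v.re ≠ 0 ∧ v.im ≠ 0 := by
  have hc : cword [w] = [(w, omega)] := by simp [cword]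
  obtain ⟨v, hv⟩ := h1 w omega [] (by omega) h3.1.le
    (by intro h; have := congrArg Prod.fst h; simp at this; omega) (by simp)
  refine ⟨v, by rw [hc]; exact hv, ?_, h4 w v hw hv⟩
  refine Submodule.subset_span ⟨[w], by simp, by simp; omega, by simp, by rw [hc]; exact hv⟩

theorem two_le (h1 : S_CV) (h2 : S_ABEL) (h3 : S_OM) (h4 : S_CL) (w : ℕ) (hw : 2 ≤ w) :
    2 ≤ Module.rank ℚ (Csp w) := by
  obtain ⟨v, -, hv, hre, him⟩ := ex_v h1 h3 h4 w hw
  have hu : uu w ∈ Csp w := by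
    obtain ⟨k, rfl⟩ : ∃ k, w = k + 1 := ⟨w - 1, by omega⟩
    exact uu_mem h2 h3 k
  have hli : LinearIndependent ℚ ![v, uu w] := by
    rw [LinearIndependent.pair_iff]
    intro s t hst
    have hs : s = 0 := by
      rcases Nat.even_or_odd w with he | ho
      · have h := congrArg Complex.im hst
        rw [Complex.add_im, Complex.smul_im, Complex.smul_im, uu_even w he, smul_zero, add_zero,
          Complex.zero_im] at h
        exact (smul_eq_zero.1 h).resolve_right him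
      · have h := congrArg Complex.re hst
        rw [Complex.add_re, Complex.smul_re, Complex.smul_re, uu_odd w ho, smul_zero, add_zero,
          Complex.zero_re] at h
        exact (smul_eq_zero.1 h).resolve_right hre
    refine ⟨hs, ?_⟩
    rw [hs, zero_smul, zero_add] at hst
    exact (smul_eq_zero.1 hst).resolve_right (uu_ne w)
  have hli' : LinearIndependent ℚ (![⟨v, hv⟩, ⟨uu w, hu⟩] : Fin 2 → Csp w) := by
    apply LinearIndependent.of_comp (Csp w).subtype
    convert hli using 1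
    funext i
    fin_cases i <;> rfl
  have := hli'.cardinal_le_rank
  simpa using this

theorem one_le (h2 : S_ABEL) (h3 : S_OM) : 1 ≤ Module.rank ℚ (Csp 1) := by
  have hu : uu 1 ∈ Csp 1 := uu_mem h2 h3 0
  have hli' : LinearIndependent ℚ (fun _ : Unit => (⟨uu 1, hu⟩ : Csp 1)) := by
    rw [linearIndependent_unique_iff]
    intro h
    exact uu_ne 1 (congrArg Subtype.val h)
  have := hli'.cardinal_le_rank
  simpa using this

theorem list_one (a : List ℕ) (h0 : a ≠ []) (h1 : ∀ x ∈ a, 1 ≤ x) (h2 : a.sum = 1) : a = [1] := by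
  match a, h0, h1, h2 with
  | [x], _, _, h2 => simp at h2; rw [h2]
  | x :: y :: r, _, h1, h2 =>
    have hx := h1 x (by simp)
    have hy := h1 y (by simp)
    simp only [List.sum_cons] at h2
    omega

theorem list_two (a : List ℕ) (h0 : a ≠ []) (h1 : ∀ x ∈ a, 1 ≤ x) (h2 : a.sum = 2) :
    a = [2] ∨ a = [1, 1] := by
  match a, h0, h1, h2 with
  | [x], _, _, h2 => simp at h2; rw [h2]; simp
  | [x, y], _, h1, h2 =>
    have hx := h1 x (by simp)
    have hy := h1 y (by simp)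
    simp only [List.sum_cons, List.sum_nil] at h2
    have : x = 1 := by omega
    have : y = 1 := by omega
    subst_vars
    simp
  | x :: y :: z :: r, _, h1, h2 =>
    have hx := h1 x (by simp)
    have hy := h1 y (by simp)
    have hz := h1 z (by simp)
    simp only [List.sum_cons] at h2
    omega

theorem le_one (h2 : S_ABEL) (h3 : S_OM) : Module.rank ℚ (Csp 1) ≤ 1 := by
  have hsub : {v | ∃ a : List ℕ, a ≠ [] ∧ (∀ x ∈ a, 1 ≤ x) ∧ a.sum = 1 ∧
      Tendsto (S (cword a)) atTop (𝓝 v)} ⊆ {uu 1} := by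
    rintro v ⟨a, h0, h1, hs, ht⟩
    rw [list_one a h0 h1 hs] at ht
    exact tendsto_nhds_unique ht (tend_rep h2 h3 0)
  calc Module.rank ℚ (Csp 1) ≤ Module.rank ℚ (Submodule.span ℚ {uu 1}) :=
        Submodule.rank_mono (Submodule.span_mono hsub)
    _ ≤ Cardinal.mk ({uu 1} : Set ℂ) := rank_span_le _
    _ = 1 := Cardinal.mk_singleton _

theorem le_two (h1' : S_CV) (h2 : S_ABEL) (h3 : S_OM) (h4 : S_CL) : Module.rank ℚ (Csp 2) ≤ 2 := by
  obtain ⟨v0, hv0, -⟩ := ex_v h1' h3 h4 2 le_rfl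
  have hsub : {v | ∃ a : List ℕ, a ≠ [] ∧ (∀ x ∈ a, 1 ≤ x) ∧ a.sum = 2 ∧
      Tendsto (S (cword a)) atTop (𝓝 v)} ⊆ {v0, uu 2} := by
    rintro v ⟨a, h0, h1, hs, ht⟩
    rcases list_two a h0 h1 hs with rfl | rfl
    · exact Or.inl (tendsto_nhds_unique ht hv0)
    · exact Or.inr (tendsto_nhds_unique ht (tend_rep h2 h3 1))
  calc Module.rank ℚ (Csp 2) ≤ Module.rank ℚ (Submodule.span ℚ {v0, uu 2}) :=
        Submodule.rank_mono (Submodule.span_mono hsub)
    _ ≤ Cardinal.mk ({v0, uu 2} : Set ℂ) := rank_span_le _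
    _ ≤ Cardinal.mk ({uu 2} : Set ℂ) + 1 := Cardinal.mk_insert_le
    _ = 2 := by rw [Cardinal.mk_singleton]; norm_num

theorem c2 (h1 : S_CV) (h2 : S_ABEL) (h3 : S_OM) (h4 : S_CL) : S_C2 :=
  ⟨le_antisymm (le_one h2 h3) (one_le h2 h3),
    le_antisymm (le_two h1 h2 h3 h4) (two_le h1 h2 h3 h4 2 le_rfl),
    fun w hw => two_le h1 h2 h3 h4 w hw⟩

end Pool.Agent.W493.MC
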